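import Pool.Agent.Helper76.CND.Girth

/-!
Balls in graphs of bounded degree.
-/

set_option linter.unusedSectionVars false
set_option linter.unusedSimpArgs false

namespace Pool.Agent.Helper76.CND

open SimpleGraph Finset Classical

variable {V : Type*} [Fintype V]

/-- There is a walk of length at most `n`. -/
def Within (G : SimpleGraph V) (n : ℕ) (x y : V) : Prop := ∃ p : G.Walk x y, p.length ≤ n

theorem Within.symm {G : SimpleGraph V} {n : ℕ} {x y : V} (h : Within G n x y) :
    Within G n y x := by
  obtain ⟨p, hp⟩ := h
  exact ⟨p.reverse, by rwa [Walk.length_reverse]⟩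

/-- The neighbours of a vertex. -/
noncomputable def nbs (G : SimpleGraph V) (w : V) : Finset V := univ.filter fun y => G.Adj w y

theorem mem_nbs {G : SimpleGraph V} {w y : V} : y ∈ nbs G w ↔ G.Adj w y := by simp [nbs]

/-- The ball. -/
noncomputable def ball (G : SimpleGraph V) (r : ℕ) (x : V) : Finset V :=
  univ.filter fun y => Within G r x y

theorem mem_ball {G : SimpleGraph V} {r : ℕ} {x y : V} : y ∈ ball G r x ↔ Within G r x y := by
  simp [ball]

theorem card_ball_le {G : SimpleGraph V} {D : ℕ} (hD : ∀ w, (nbs G w).card ≤ D) (r : ℕ) (x : V) :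
    (ball G r x).card ≤ (D + 1) ^ r := by
  induction r generalizing x with
  | zero =>
    have h1 : ball G 0 x ⊆ {x} := by
      intro y hy
      obtain ⟨p, hp⟩ := mem_ball.1 hy
      have h2 : p.length = 0 := by omega
      rw [Finset.mem_singleton]
      exact (Walk.eq_of_length_eq_zero h2).symm
    calc (ball G 0 x).card ≤ ({x} : Finset V).card := Finset.card_le_card h1
      _ = (D + 1) ^ 0 := by simp
  | succ r ih =>
    have h1 : ball G (r + 1) x ⊆ {x} ∪ (nbs G x).biUnion fun z => ball G r z := by
      intro y hy
      obtain ⟨p, hp⟩ := mem_ball.1 hy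
      rw [Finset.mem_union, Finset.mem_singleton, Finset.mem_biUnion]
      cases p with
      | nil => exact Or.inl rfl
      | @cons _ z _ h p =>
        rw [Walk.length_cons] at hp
        exact Or.inr ⟨z, mem_nbs.2 h, mem_ball.2 ⟨p, by omega⟩⟩
    have h2 : ((nbs G x).biUnion fun z => ball G r z).card ≤ (nbs G x).card * (D + 1) ^ r :=
      Finset.card_biUnion_le_card_mul _ _ _ fun z _ => ih z
    calc (ball G (r + 1) x).card
        ≤ ({x} ∪ (nbs G x).biUnion fun z => ball G r z).card := Finset.card_le_card h1
      _ ≤ 1 + ((nbs G x).biUnion fun z => ball G r z).card := by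
          refine le_trans (Finset.card_union_le _ _) ?_
          simp
      _ ≤ 1 + D * (D + 1) ^ r := by
          have := Nat.mul_le_mul_right ((D + 1) ^ r) (hD x)
          omega
      _ ≤ (D + 1) ^ (r + 1) := by
          have : 1 ≤ (D + 1) ^ r := Nat.one_le_pow _ _ (by omega)
          rw [pow_succ]
          nlinarith

/-- Hamiltonian path of `W` from `u` to `p`. -/
def HamOn (G : SimpleGraph V) (W : Finset V) (u p : V) : Prop :=
  ∃ l : List V, l.IsChain G.Adj ∧ l.Nodup ∧ (∀ x, x ∈ l ↔ x ∈ W) ∧
    l.head? = some u ∧ l.getLast? = some p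

theorem HamOn.mono {G G' : SimpleGraph V} (h : G ≤ G') {W : Finset V} {u p : V}
    (H : HamOn G W u p) : HamOn G' W u p := by
  obtain ⟨l, h1, h2, h3, h4, h5⟩ := H
  exact ⟨l, h1.imp fun _ _ hab => h hab, h2, h3, h4, h5⟩

theorem HamOn.symm {G : SimpleGraph V} {W : Finset V} {u p : V} (H : HamOn G W u p) :
    HamOn G W p u := by
  obtain ⟨l, h1, h2, h3, h4, h5⟩ := H
  refine ⟨l.reverse, ?_, by rwa [List.nodup_reverse], by simpa using h3, ?_, ?_⟩
  · rw [List.isChain_reverse]
    exact h1.imp fun _ _ hab => hab.symm
  · rw [List.head?_reverse, h5]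
  · rw [List.getLast?_reverse, h4]

/-- The rotation: for every `u` there is a vertex `y` adjacent to `u` such that a new edge from the
start `x` to `y` gives a Hamiltonian path starting at `u`. -/
theorem HamOn.rotate {G : SimpleGraph V} {W : Finset V} {x p : V} (H : HamOn G W x p) {u : V}
    (hu : u ∈ W) (hux : u ≠ x) (hup : u ≠ p) :
    ∃ y, y ∈ W ∧ G.Adj u y ∧ y ≠ x ∧ ∀ G' : SimpleGraph V, G ≤ G' → G'.Adj x y → HamOn G' W u p := by
  obtain ⟨l, h1, h2, h3, h4, h5⟩ := H
  obtain ⟨l1, l2, hl⟩ := List.append_of_mem ((h3 u).2 hu)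
  cases l2 with
  | nil =>
    exfalso
    rw [hl] at h5
    simp at h5
    exact hup h5
  | cons y l2 =>
    cases l1 with
    | nil =>
      exfalso
      rw [hl] at h4
      simp at h4
      exact hux h4
    | cons x' l1 =>
      have hx' : x' = x := by
        rw [hl] at h4
        simpa using h4
      subst hx'
      rw [hl] at h1 h2 h5
      have hchain := h1
      rw [show x' :: l1 ++ u :: y :: l2 = (x' :: l1 ++ [u]) ++ (y :: l2) by simp] at h1 h2 h5
      rw [List.isChain_append] at h1
      obtain ⟨c1, c2, c3⟩ := h1
      have hadj : G.Adj u y := c3 u (by rw [List.getLast?_append]; simp) y (by simp)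
      refine ⟨y, (h3 y).1 (by rw [hl]; simp), hadj, ?_, ?_⟩
      · rintro rfl
        simp at h2
      · intro G' hle hG'
        refine ⟨(x' :: l1 ++ [u]).reverse ++ (y :: l2), ?_, ?_, ?_, ?_, ?_⟩
        · rw [List.isChain_append]
          refine ⟨?_, c2.imp fun _ _ hab => hle hab, ?_⟩
          · rw [List.isChain_reverse]
            exact c1.imp fun _ _ hab => hle hab.symm
          · intro a ha b hb
            rw [List.getLast?_reverse] at ha
            simp at ha hb
            subst ha hb
            exact hG'
        · rw [List.nodup_append] at h2 ⊢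
          refine ⟨List.nodup_reverse.2 h2.1, h2.2.1, ?_⟩
          intro a ha b hb
          exact h2.2.2 a (List.mem_reverse.1 ha) b hb
        · intro z
          rw [← h3 z, hl]
          simp only [List.mem_append, List.mem_reverse, List.mem_cons, List.mem_singleton]
          simp
          tauto
        · simp
        · rw [List.getLast?_append] at h5 ⊢
          simpa using h5

end Pool.Agent.Helper76.CND
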