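import Mathlib

/-!
The skeleton: the cubic graph on 36 vertices obtained from `K_4` by replacing each vertex by the
Petersen graph minus a vertex.
-/

set_option maxRecDepth 100000

namespace Pool.Agent.Helper76.CND

/-- Skeleton vertices: `(j, y)` is vertex `y` of the `j`-th Petersen piece. The vertices with
`y < 3` carry the edges leaving the piece. -/
abbrev B : Type := Fin 4 × Fin 9

/-- Inner neighbours in a Petersen piece (slot `0` of the vertices `0, 1, 2` is not used). -/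
def inn (y : Fin 9) (s : Fin 3) : Fin 9 :=
  match y, s with
  | 0, 1 => 3 | 0, 2 => 4
  | 1, 1 => 5 | 1, 2 => 6
  | 2, 1 => 7 | 2, 2 => 8
  | 3, 0 => 0 | 3, 1 => 5 | 3, 2 => 7
  | 4, 0 => 0 | 4, 1 => 6 | 4, 2 => 8
  | 5, 0 => 1 | 5, 1 => 3 | 5, 2 => 8
  | 6, 0 => 1 | 6, 1 => 4 | 6, 2 => 7
  | 7, 0 => 2 | 7, 1 => 3 | 7, 2 => 6
  | 8, 0 => 2 | 8, 1 => 4 | 8, 2 => 5
  | _, _ => 0

/-- The neighbour of `b` through slot `s`. -/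
def nbr (b : B) (s : Fin 3) : B :=
  if b.2 < 3 ∧ s = 0 then (Fin.ofNat 4 (b.1.val + 1 + b.2.val), Fin.ofNat 9 (2 - b.2.val))
  else (b.1, inn b.2 s)

/-- The slot of the edge at the other end. -/
def back (b : B) (s : Fin 3) : Fin 3 :=
  if nbr (nbr b s) 0 = b then 0 else if nbr (nbr b s) 1 = b then 1 else 2

theorem nbr_back : ∀ (b : B) (s : Fin 3), nbr (nbr b s) (back b s) = b := by decide +kernel

theorem nbr_inj : ∀ (b : B) (s s' : Fin 3), nbr b s = nbr b s' → s = s' := by decide +kernel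

theorem nbr_ne : ∀ (b : B) (s : Fin 3), nbr b s ≠ b := by decide +kernel

/-- Two neighbouring vertices of type `y < 3` are joined through the slots `0`. -/
theorem nbr_plain : ∀ (b : B) (s : Fin 3), b.2 < 3 → (nbr b s).2 < 3 → s = 0 := by decide +kernel

/-- decoding -/
def dec (v : ℕ) : B := (Fin.ofNat 4 (v / 9), Fin.ofNat 9 (v % 9))

/-- rotation of the skeleton -/
def shift (j : Fin 4) (b : B) : B := (b.1 + j, b.2)

/-- Skeleton paths starting at `(0, y)`. -/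
def skp (y : Fin 9) (c : Fin 2) : List ℕ :=
  match y, c with
  | 0, 0 => [0, 11, 17, 13, 15, 16, 12, 9, 20, 25, 21, 23, 26, 22, 24, 19, 1, 5, 3, 7, 6, 4, 8, 2, 27, 31, 35, 32, 30, 34, 33, 28, 10, 14]
  | 0, 1 => [0, 11, 17, 13, 15, 16, 12, 9, 20, 25, 21, 23, 26, 22, 24, 19, 1, 5, 3, 7, 6, 4, 8, 2, 27, 31, 35, 32, 30, 34, 33, 28, 10, 14]
  | 1, 0 => [1, 19, 23, 21, 25, 24, 22, 18, 29, 34, 33, 31, 35, 32, 30, 27, 2, 7, 6, 4, 8, 5, 3, 0, 11, 16, 15, 13, 17, 14, 12, 9, 20, 26]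
  | 1, 1 => [1, 19, 23, 21, 25, 24, 22, 18, 29, 34, 33, 31, 35, 32, 30, 27, 2, 7, 6, 4, 8, 5, 3, 0, 11, 16, 15, 13, 17, 14, 12, 9, 20, 26]
  | 2, 0 => [2, 27, 31, 35, 32, 30, 34, 29, 18, 22, 26, 23, 21, 25, 24, 19, 1, 5, 8, 4, 6, 7, 3, 0, 11, 16, 12, 14, 17, 13, 15, 10, 28, 33]
  | 2, 1 => [2, 27, 31, 35, 32, 30, 34, 29, 18, 22, 26, 23, 21, 25, 24, 19, 1, 5, 8, 4, 6, 7, 3, 0, 11, 16, 12, 14, 17, 13, 15, 10, 28, 33]
  | 3, 0 => [3, 0, 4, 6, 7, 2, 8, 5, 1, 19, 24, 22, 26, 23, 21, 25, 20, 9, 13, 17, 14, 12, 16, 15, 10, 28, 33, 31, 27, 30, 32, 35, 29, 34]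
  | 3, 1 => [3, 5, 8, 4, 0, 11, 17, 14, 12, 16, 15, 10, 28, 33, 34, 30, 32, 35, 31, 27, 2, 7, 6, 1, 19, 23, 21, 25, 24, 22, 26, 20, 9, 13]
  | 4, 0 => [4, 0, 3, 7, 6, 1, 5, 8, 2, 27, 31, 35, 29, 18, 22, 24, 25, 21, 23, 26, 20, 9, 13, 17, 14, 12, 16, 15, 10, 28, 32, 30, 34, 33]
  | 4, 1 => [4, 6, 1, 5, 8, 2, 7, 3, 0, 11, 16, 15, 13, 17, 14, 12, 9, 20, 25, 24, 22, 26, 23, 21, 18, 29, 35, 32, 28, 33, 34, 30, 27, 31]
  | 5, 0 => [5, 1, 19, 23, 26, 20, 9, 13, 15, 16, 12, 14, 17, 11, 0, 3, 7, 6, 4, 8, 2, 27, 30, 32, 35, 31, 33, 34, 29, 18, 22, 24, 25, 21]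
  | 5, 1 => [5, 3, 7, 6, 1, 19, 23, 21, 25, 24, 22, 18, 29, 34, 33, 31, 35, 32, 30, 27, 2, 8, 4, 0, 11, 16, 15, 13, 17, 14, 12, 9, 20, 26]
  | 6, 0 => [6, 1, 19, 23, 26, 22, 24, 25, 21, 18, 29, 35, 32, 30, 34, 33, 31, 27, 2, 7, 3, 5, 8, 4, 0, 11, 16, 12, 9, 13, 17, 14, 10, 15]
  | 6, 1 => [6, 4, 0, 3, 7, 2, 8, 5, 1, 19, 24, 25, 20, 9, 12, 16, 15, 13, 17, 14, 10, 28, 32, 30, 34, 33, 31, 35, 29, 18, 21, 23, 26, 22]
  | 7, 0 => [7, 2, 27, 31, 33, 34, 30, 32, 35, 29, 18, 22, 26, 20, 9, 13, 15, 16, 12, 14, 17, 11, 0, 3, 5, 8, 4, 6, 1, 19, 24, 25, 21, 23]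
  | 7, 1 => [7, 3, 5, 8, 2, 27, 31, 33, 28, 10, 14, 12, 16, 15, 13, 17, 11, 0, 4, 6, 1, 19, 24, 25, 21, 23, 26, 22, 18, 29, 35, 32, 30, 34]
  | 8, 0 => [8, 2, 7, 6, 4, 0, 3, 5, 1, 19, 23, 21, 25, 24, 22, 18, 29, 35, 31, 33, 34, 30, 32, 28, 10, 14, 17, 13, 15, 16, 12, 9, 20, 26]
  | 8, 1 => [8, 4, 6, 7, 2, 27, 30, 34, 29, 18, 22, 26, 23, 21, 25, 24, 19, 1, 5, 3, 0, 11, 16, 12, 14, 17, 13, 15, 10, 28, 32, 35, 31, 33]

/-- Skeleton paths starting at `b`. -/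
def skl (b : B) (c : Fin 2) : List B := ((skp b.2 c).map dec).map (shift b.1)

theorem skl_chain : ∀ (b : B) (c : Fin 2),
    (skl b c).IsChain (fun a a' => ∃ s, nbr a s = a') := by decide +kernel

theorem skl_nodup : ∀ (b : B) (c : Fin 2), (skl b c).Nodup := by decide +kernel

theorem skl_miss : ∀ (b : B) (c : Fin 2) (a : B), a ∉ skl b c → a.2 < 3 := by decide +kernel

theorem skl_length : ∀ (b : B) (c : Fin 2), (skl b c).length = 34 := by decide +kernel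

theorem skl_head : ∀ (b : B) (c : Fin 2), (skl b c).head? = some b := by decide +kernel

theorem skl_second : ∀ b : B, ¬ b.2 < 3 → ∃ s0 s1 : Fin 3, s0 ≠ s1 ∧
    (skl b 0)[1]? = some (nbr b s0) ∧ (skl b 1)[1]? = some (nbr b s1) := by decide +kernel

end Pool.Agent.Helper76.CND
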