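import Pool.Agent.Helper76.CND.Piece
import Pool.Agent.Helper76.CND.Skel

/-!
The composition of the skeleton with the pieces, and its girth.
-/

set_option linter.unusedSectionVars false

namespace Pool.Agent.Helper76.CND

open SimpleGraph

/-- If no edge outside `G0` has a short detour, then `G` inherits the girth bound of `G0`. -/
theorem noShort_of_new {V : Type*} [Fintype V] {G0 G : SimpleGraph V} {g : ℕ} (h0 : NoShort G0 g)
    (hle : G0 ≤ G) (hnew : ∀ x y, G.Adj x y → ¬ G0.Adj x y →
      ∀ w : (G.deleteEdges {s(x, y)}).Walk x y, g ≤ w.length + 1) : NoShort G g := by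
  classical
  induction hk : (Finset.univ.filter fun p : V × V => G.Adj p.1 p.2 ∧ ¬ G0.Adj p.1 p.2).card
    using Nat.strong_induction_on generalizing G with
  | _ k ih =>
    by_cases hex : ∃ x y, G.Adj x y ∧ ¬ G0.Adj x y
    · obtain ⟨x, y, hxy, hxy0⟩ := hex
      have hle' : G0 ≤ G.deleteEdges {s(x, y)} := by
        intro a b hab
        rw [deleteEdges_adj]
        refine ⟨hle hab, ?_⟩
        intro hcon
        rw [Set.mem_singleton_iff, Sym2.eq_iff] at hcon
        rcases hcon with ⟨rfl, rfl⟩ | ⟨rfl, rfl⟩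
        · exact hxy0 hab
        · exact hxy0 hab.symm
      have hsub : G.deleteEdges {s(x, y)} ≤ G := deleteEdges_le _
      have hlt : (Finset.univ.filter fun p : V × V => (G.deleteEdges {s(x, y)}).Adj p.1 p.2 ∧
          ¬ G0.Adj p.1 p.2).card < k := by
        rw [← hk]
        apply Finset.card_lt_card
        rw [Finset.ssubset_iff_of_subset]
        · refine ⟨(x, y), ?_, ?_⟩
          · simp [hxy, hxy0]
          · simp [deleteEdges_adj]
        · intro p hp
          rw [Finset.mem_filter] at hp ⊢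
          exact ⟨hp.1, hsub hp.2.1, hp.2.2⟩
      have h1 : NoShort (G.deleteEdges {s(x, y)}) g := by
        refine ih _ hlt hle' ?_ (by congr)
        intro a b hab hab0 w
        have hle2 : (G.deleteEdges {s(x, y)}).deleteEdges {s(a, b)} ≤ G.deleteEdges {s(a, b)} := by
          intro c d hcd
          rw [deleteEdges_adj] at hcd ⊢
          exact ⟨hsub hcd.1, hcd.2⟩
        have := hnew a b (hsub hab) hab0 (w.mapLe hle2)
        rwa [Walk.length_mapLe] at this
      have h2 : G = addE (G.deleteEdges {s(x, y)}) x y := by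
        ext a b
        simp only [addE, deleteEdges_adj, Set.mem_singleton_iff]
        constructor
        · intro hab
          by_cases hs : s(a, b) = s(x, y)
          · exact Or.inr ⟨hab.ne, hs⟩
          · exact Or.inl ⟨hab, hs⟩
        · rintro (⟨hab, -⟩ | ⟨-, hs⟩)
          · exact hab
          · rw [Sym2.eq_iff] at hs
            rcases hs with ⟨rfl, rfl⟩ | ⟨rfl, rfl⟩
            · exact hxy
            · exact hxy.symm
      rw [h2]
      exact noShort_addE h1 (hnew x y hxy hxy0)
    · have : G = G0 := by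
        apply le_antisymm _ hle
        intro a b hab
        by_contra hcon
        exact hex ⟨a, b, hab, hcon⟩
      rw [this]
      exact h0

variable {g n : ℕ}

/-- The vertex of the fibre over `b` at which slot `s` is attached. -/
def pt (P : Piece g n) (b : B) (s : Fin 3) : Fin n := if b.2 < 3 then P.p 0 else P.p s

/-- Edges inside the fibres. -/
def inside (P : Piece g n) : SimpleGraph (B × Fin n) where
  Adj u v := u.1 = v.1 ∧ ¬ u.1.2 < 3 ∧ P.K.Adj u.2 v.2
  symm := ⟨by
    rintro u v ⟨h1, h2, h3⟩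
    exact ⟨h1.symm, h1 ▸ h2, h3.symm⟩⟩
  loopless := ⟨by
    rintro u ⟨-, -, h⟩
    exact P.K.loopless.irrefl _ h⟩

/-- Edges between two different fibres. -/
def Cross (P : Piece g n) (u v : B × Fin n) : Prop :=
  ∃ s s', nbr u.1 s = v.1 ∧ nbr v.1 s' = u.1 ∧ u.2 = pt P u.1 s ∧ v.2 = pt P v.1 s'

theorem Cross.symm {P : Piece g n} {u v : B × Fin n} (h : Cross P u v) : Cross P v u := by
  obtain ⟨s, s', h1, h2, h3, h4⟩ := h
  exact ⟨s', s, h2, h1, h4, h3⟩

theorem Cross.ne {P : Piece g n} {u v : B × Fin n} (h : Cross P u v) : u.1 ≠ v.1 := by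
  obtain ⟨s, s', h1, h2, h3, h4⟩ := h
  intro h
  exact nbr_ne u.1 s (h1.trans h.symm)

/-- The composition without the edges between an inflated fibre and another fibre. -/
def plain (P : Piece g n) : SimpleGraph (B × Fin n) where
  Adj u v := (inside P).Adj u v ∨ (Cross P u v ∧ u.1.2 < 3 ∧ v.1.2 < 3)
  symm := ⟨by
    rintro u v (h | ⟨h1, h2, h3⟩)
    · exact Or.inl h.symm
    · exact Or.inr ⟨h1.symm, h3, h2⟩⟩
  loopless := ⟨by
    rintro u (h | ⟨h, -⟩)
    · exact (inside P).loopless.irrefl _ h
    · exact h.ne rfl⟩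

/-- The composition. -/
def full (P : Piece g n) : SimpleGraph (B × Fin n) where
  Adj u v := (inside P).Adj u v ∨ Cross P u v
  symm := ⟨by
    rintro u v (h | h1)
    · exact Or.inl h.symm
    · exact Or.inr h1.symm⟩
  loopless := ⟨by
    rintro u (h | h)
    · exact (inside P).loopless.irrefl _ h
    · exact h.ne rfl⟩

theorem inside_walk (P : Piece g n) {u v : B × Fin n} (b : B) (x y : Fin n)
    (w : ((inside P).deleteEdges {s((b, x), (b, y))}).Walk u v) (hu : u.1 = b) :
    ∃ q : (P.K.deleteEdges {s(x, y)}).Walk u.2 v.2, q.length = w.length := by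
  induction w with
  | nil => exact ⟨Walk.nil, rfl⟩
  | @cons u z v h w ih =>
    rw [deleteEdges_adj] at h
    obtain ⟨⟨h1, h2, h3⟩, h4⟩ := h
    have hz : z.1 = b := h1.symm.trans hu
    obtain ⟨q, hq⟩ := ih hz
    have hadj : (P.K.deleteEdges {s(x, y)}).Adj u.2 z.2 := by
      rw [deleteEdges_adj]
      refine ⟨h3, ?_⟩
      intro hcon
      apply h4
      rw [Set.mem_singleton_iff, Sym2.eq_iff] at hcon ⊢
      rcases hcon with ⟨e1, e2⟩ | ⟨e1, e2⟩
      · exact Or.inl ⟨Prod.ext hu e1, Prod.ext hz e2⟩
      · exact Or.inr ⟨Prod.ext hu e1, Prod.ext hz e2⟩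
    exact ⟨Walk.cons hadj q, by rw [Walk.length_cons, Walk.length_cons, hq]⟩

theorem noShort_inside (P : Piece g n) : NoShort (inside P) g := by
  rintro ⟨b, x⟩ ⟨b', y⟩ hadj w
  obtain ⟨h1, h2, h3⟩ := hadj
  simp only at h1
  subst h1
  obtain ⟨q, hq⟩ := inside_walk P b x y w rfl
  have := P.short x y h3 q
  omega

theorem noShort_plain (P : Piece g n) : NoShort (plain P) g := by
  apply noShort_of_new (noShort_inside P) (fun _ _ h => Or.inl h)
  intro x y hxy hxy0 w
  exfalso
  have hc : Cross P x y ∧ x.1.2 < 3 ∧ y.1.2 < 3 := by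
    rcases hxy with h | h
    · exact absurd h hxy0
    · exact h
  obtain ⟨hc, hx, hy⟩ := hc
  cases w with
  | nil => exact hc.ne rfl
  | @cons _ z _ h w =>
    rw [deleteEdges_adj] at h
    obtain ⟨h1, h2⟩ := h
    rcases h1 with ⟨-, h1, -⟩ | ⟨hc', -, hz⟩
    · exact h1 hx
    · -- the only neighbour of `x` in `plain` is `y`
      apply h2
      obtain ⟨s, s', e1, e2, e3, e4⟩ := hc
      obtain ⟨t, t', f1, f2, f3, f4⟩ := hc'
      have g1 : s = 0 := nbr_plain x.1 s hx (e1 ▸ hy)
      have g2 : t = 0 := nbr_plain x.1 t hx (f1 ▸ hz)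
      have g3 : z.1 = y.1 := by rw [← e1, ← f1, g1, g2]
      have g4 : z.2 = y.2 := by
        rw [e4, f4]
        simp only [pt]
        rw [if_pos hz, if_pos hy]
      rw [Set.mem_singleton_iff, Prod.ext g3 g4]

/-- A detour around an edge leaving an inflated fibre is long. -/
theorem long_detour (P : Piece g n) {u v : B × Fin n} (hu : ¬ u.1.2 < 3) {s : Fin 3}
    (hs : nbr u.1 s = v.1) {s' : Fin 3} (hs' : nbr v.1 s' = u.1) (hu2 : u.2 = pt P u.1 s)
    (hv2 : v.2 = pt P v.1 s') {z v' : B × Fin n}
    (w : ((full P).deleteEdges {s(u, v)}).Walk z v') (hz : z.1 = u.1) (hv' : v'.1 ≠ u.1)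
    (q : P.K.Walk (P.p s) z.2) : g ≤ q.length + w.length := by
  induction w with
  | nil => exact absurd hz hv'
  | @cons z z' v' h w ih =>
    rw [deleteEdges_adj] at h
    obtain ⟨h1, h2⟩ := h
    rw [Walk.length_cons]
    rcases h1 with ⟨h3, -, h4⟩ | ⟨t, t', h3, h4, h5, h6⟩
    · have := ih (h3.symm.trans hz) hv' (q.concat h4)
      rw [Walk.length_concat] at this
      omega
    · have hts : t ≠ s := by
        rintro rfl
        apply h2
        have e1 : z = u := by
          apply Prod.ext hz
          rw [h5, hu2, hz]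
        have e2 : z'.1 = v.1 := by rw [← h3, hz, hs]
        have e3 : t' = s' := by
          apply nbr_inj v.1
          rw [← e2, h4, hz, e2, hs']
        have e4 : z' = v := by
          apply Prod.ext e2
          rw [h6, hv2, e2, e3]
        rw [Set.mem_singleton_iff, e1, e4]
      have hzt : z.2 = P.p t := by
        rw [h5, pt, if_neg]
        rw [hz]
        exact hu
      have := P.far s t hts.symm (q.copy rfl hzt)
      rw [Walk.length_copy] at this
      omega

theorem noShort_full (P : Piece g n) : NoShort (full P) g := by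
  apply noShort_of_new (noShort_plain P)
  · intro x y h
    rcases h with h | h
    · exact Or.inl h
    · exact Or.inr h.1
  · intro x y hxy hxy0 w
    have hc : Cross P x y := by
      rcases hxy with h | h
      · exact absurd (Or.inl h) hxy0
      · exact h
    obtain ⟨s, s', e1, e2, e3, e4⟩ := hc
    by_cases hx : x.1.2 < 3
    · have hy : ¬ y.1.2 < 3 := by
        intro hy
        exact hxy0 (Or.inr ⟨⟨s, s', e1, e2, e3, e4⟩, hx, hy⟩)
      have hle : (full P).deleteEdges {s(x, y)} ≤ (full P).deleteEdges {s(y, x)} := by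
        rw [Sym2.eq_swap]
      have hy2 : y.2 = P.p s' := by rw [e4, pt, if_neg hy]
      have := long_detour P hy e2 e1 e4 e3 (w.mapLe hle).reverse rfl
        (Cross.ne ⟨s, s', e1, e2, e3, e4⟩) (Walk.nil.copy rfl hy2.symm)
      rw [Walk.length_reverse, Walk.length_mapLe, Walk.length_copy, Walk.length_nil] at this
      omega
    · have hx2 : x.2 = P.p s := by rw [e3, pt, if_neg hx]
      have := long_detour P hx e1 e2 e3 e4 w rfl
        (Cross.ne ⟨s, s', e1, e2, e3, e4⟩).symm (Walk.nil.copy rfl hx2.symm)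
      rw [Walk.length_copy, Walk.length_nil] at this
      omega

end Pool.Agent.Helper76.CND
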