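import Mathlib

/-!
Lower bounds for the girth through short detours around edges.
-/

namespace Pool.Agent.Helper76.CND

open SimpleGraph

variable {V : Type*}

/-- No edge has a short detour. -/
def NoShort (G : SimpleGraph V) (g : ℕ) : Prop :=
  ∀ x y, G.Adj x y → ∀ w : (G.deleteEdges {s(x, y)}).Walk x y, g ≤ w.length + 1

theorem NoShort.egirth {G : SimpleGraph V} {g : ℕ} (h : NoShort G g) : (g : ℕ∞) ≤ G.egirth := by
  rw [le_egirth]
  intro a c hc
  cases c with
  | nil => simp at hc
  | @cons u v w hadj p =>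
    rw [Walk.cons_isCycle_iff] at hc
    have h1 : ∀ e ∈ p.reverse.edges, e ∉ ({s(a, v)} : Set (Sym2 V)) := by
      intro e he hcon
      rw [Set.mem_singleton_iff] at hcon
      rw [Walk.edges_reverse, List.mem_reverse] at he
      exact hc.2 (hcon ▸ he)
    have h2 := h a v hadj (p.reverse.toDeleteEdges _ h1)
    rw [Walk.length_cons]
    have h3 : (p.reverse.toDeleteEdges {s(a, v)} h1).length = p.length := by
      simp [Walk.toDeleteEdges]
    rw [h3] at h2
    exact_mod_cast h2

/-- Adding an edge. -/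
def addE (G : SimpleGraph V) (a b : V) : SimpleGraph V where
  Adj x y := G.Adj x y ∨ (x ≠ y ∧ s(x, y) = s(a, b))
  symm := ⟨by
    rintro x y (h | ⟨h1, h2⟩)
    · exact Or.inl h.symm
    · exact Or.inr ⟨h1.symm, by rw [Sym2.eq_swap]; exact h2⟩⟩
  loopless := ⟨by
    rintro x (h | ⟨h1, -⟩)
    · exact G.loopless.irrefl x h
    · exact h1 rfl⟩

theorem le_addE (G : SimpleGraph V) (a b : V) : G ≤ addE G a b := fun _ _ h => Or.inl h

theorem addE_adj {G : SimpleGraph V} {a b : V} (h : a ≠ b) : (addE G a b).Adj a b :=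
  Or.inr ⟨h, rfl⟩

/-- Walks in `addE H a b` in terms of walks in `H`. -/
theorem walk_addE {H : SimpleGraph V} {a b x y : V} (w : (addE H a b).Walk x y) :
    (∃ p : H.Walk x y, p.length ≤ w.length) ∨
    (∃ (p : H.Walk x a) (q : H.Walk b y), p.length + q.length + 1 ≤ w.length) ∨
    (∃ (p : H.Walk x b) (q : H.Walk a y), p.length + q.length + 1 ≤ w.length) := by
  induction w with
  | nil => exact Or.inl ⟨Walk.nil, by simp⟩
  | @cons u v z hadj w ih =>
    rw [Walk.length_cons]
    rcases hadj with h | ⟨hne, h⟩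
    · rcases ih with ⟨p, hp⟩ | ⟨p, r, hp⟩ | ⟨p, r, hp⟩
      · exact Or.inl ⟨Walk.cons h p, by rw [Walk.length_cons]; omega⟩
      · exact Or.inr (Or.inl ⟨Walk.cons h p, r, by rw [Walk.length_cons]; omega⟩)
      · exact Or.inr (Or.inr ⟨Walk.cons h p, r, by rw [Walk.length_cons]; omega⟩)
    · rw [Sym2.eq_iff] at h
      rcases h with ⟨rfl, rfl⟩ | ⟨rfl, rfl⟩
      · rcases ih with ⟨p, hp⟩ | ⟨p, r, hp⟩ | ⟨p, r, hp⟩
        · exact Or.inr (Or.inl ⟨Walk.nil, p, by rw [Walk.length_nil]; omega⟩)
        · exact Or.inr (Or.inl ⟨Walk.nil, r, by rw [Walk.length_nil]; omega⟩)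
        · exact Or.inl ⟨r, by omega⟩
      · rcases ih with ⟨p, hp⟩ | ⟨p, r, hp⟩ | ⟨p, r, hp⟩
        · exact Or.inr (Or.inr ⟨Walk.nil, p, by rw [Walk.length_nil]; omega⟩)
        · exact Or.inl ⟨r, by omega⟩
        · exact Or.inr (Or.inr ⟨Walk.nil, r, by rw [Walk.length_nil]; omega⟩)

theorem noShort_addE {G : SimpleGraph V} {g : ℕ} {a b : V} (h : NoShort G g)
    (hd : ∀ p : G.Walk a b, g ≤ p.length + 1) : NoShort (addE G a b) g := by
  intro x y hxy w
  by_cases he : s(x, y) = s(a, b)
  · -- the new edge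
    have hle : (addE G a b).deleteEdges {s(x, y)} ≤ G := by
      intro u v huv
      rw [deleteEdges_adj] at huv
      rcases huv.1 with h1 | ⟨-, h1⟩
      · exact h1
      · exact absurd (by rw [Set.mem_singleton_iff, h1, he]) huv.2
    rw [Sym2.eq_iff] at he
    rcases he with ⟨rfl, rfl⟩ | ⟨rfl, rfl⟩
    · have := hd (w.mapLe hle)
      rwa [Walk.length_mapLe] at this
    · have := hd (w.mapLe hle).reverse
      rwa [Walk.length_reverse, Walk.length_mapLe] at this
  · have hG : G.Adj x y := by
      rcases hxy with h1 | ⟨-, h1⟩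
      · exact h1
      · exact absurd h1 he
    have hle : (addE G a b).deleteEdges {s(x, y)} ≤ addE (G.deleteEdges {s(x, y)}) a b := by
      intro u v huv
      rw [deleteEdges_adj] at huv
      rcases huv.1 with h1 | h1
      · exact Or.inl (by rw [deleteEdges_adj]; exact ⟨h1, huv.2⟩)
      · exact Or.inr h1
    have hle' : G.deleteEdges {s(x, y)} ≤ G := deleteEdges_le _
    rcases walk_addE (w.mapLe hle) with ⟨p, hp⟩ | ⟨p, r, hp⟩ | ⟨p, r, hp⟩
    · rw [Walk.length_mapLe] at hp
      have := h x y hG p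
      omega
    · rw [Walk.length_mapLe] at hp
      have := hd ((p.mapLe hle').reverse.append (Walk.cons hG (r.mapLe hle').reverse))
      simp only [Walk.length_append, Walk.length_reverse, Walk.length_cons,
        Walk.length_mapLe] at this
      omega
    · rw [Walk.length_mapLe] at hp
      have := hd ((r.mapLe hle').append (Walk.cons hG.symm (p.mapLe hle')))
      simp only [Walk.length_append, Walk.length_cons, Walk.length_mapLe] at this
      omega

end Pool.Agent.Helper76.CND
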