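import Pool.Agent.Helper76.CND.Ball

/-!
The greedy construction: adding edges of large distance until every vertex of `W` starts a
Hamiltonian path of `W` ending in `p`.
-/

namespace Pool.Agent.Helper76.CND

open SimpleGraph Finset Classical

variable {V : Type*} [Fintype V]

/-- The state of the greedy algorithm. -/
structure St (G0 : SimpleGraph V) (g D0 : ℕ) (W : Finset V) (p : V) (G : SimpleGraph V)
    (S : Finset V) (c : V → ℕ) : Prop where
  le : G0 ≤ G
  short : NoShort G g
  inW : ∀ u v, G.Adj u v → G0.Adj u v ∨ (u ∈ W ∧ v ∈ W)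
  sub : S ⊆ W.erase p
  ham : ∀ x ∈ S, HamOn G W x p
  cnt : ∑ x, c x + 1 ≤ S.card
  c_le : ∀ x, c x ≤ 2
  phi : ∀ w, (nbs G w).card + ((nbs G w) ∩ (W.erase p \ S)).card ≤ 2 * D0 + 2 * c w

theorem St.deg {G0 G : SimpleGraph V} {g D0 : ℕ} {W S : Finset V} {p : V} {c : V → ℕ}
    (h : St G0 g D0 W p G S c) (w : V) : (nbs G w).card ≤ 2 * D0 + 4 := by
  have h1 := h.phi w
  have h2 := h.c_le w
  omega

theorem St.choose {G0 G : SimpleGraph V} {g D0 : ℕ} {W S : Finset V} {p : V} {c : V → ℕ}
    (h : St G0 g D0 W p G S c) (hp : p ∈ W) (hbig : 4 * (2 * D0 + 5) ^ g < W.card)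
    (hU : (W.erase p \ S).Nonempty) :
    ∃ x ∈ S, c x < 2 ∧ ∃ u ∈ W.erase p \ S, ¬ Within G (g - 1) x u := by
  set M := (2 * D0 + 5) ^ g with hM
  have hball : ∀ z, (ball G (g - 1) z).card ≤ M := by
    intro z
    refine le_trans (card_ball_le (D := 2 * D0 + 4) h.deg _ _) ?_
    rw [hM]
    exact Nat.pow_le_pow_right (by omega) (by omega)
  let A := S.filter fun x => c x < 2
  have hA : S.card + 1 ≤ 2 * A.card := by
    have h1 : (S.filter fun x => ¬ c x < 2).card * 2 ≤ ∑ x, c x := by
      calc (S.filter fun x => ¬ c x < 2).card * 2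
          = ∑ x ∈ S.filter fun x => ¬ c x < 2, 2 := by rw [Finset.sum_const, smul_eq_mul]
        _ ≤ ∑ x ∈ S.filter fun x => ¬ c x < 2, c x := by
            apply Finset.sum_le_sum
            intro x hx
            have := (Finset.mem_filter.1 hx).2
            omega
        _ ≤ ∑ x, c x := Finset.sum_le_sum_of_subset (Finset.subset_univ _)
    have h2 : A.card + (S.filter fun x => ¬ c x < 2).card = S.card :=
      Finset.card_filter_add_card_filter_not _
    have h3 := h.cnt
    omega
  have hS : S.card + 1 ≤ W.card := by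
    have h1 := Finset.card_le_card h.sub
    rw [Finset.card_erase_of_mem hp] at h1
    have h2 : 0 < W.card := Finset.card_pos.2 ⟨p, hp⟩
    omega
  by_cases hcase : 2 * M ≤ S.card
  · obtain ⟨u, hu⟩ := hU
    have h1 : (ball G (g - 1) u).card < A.card := by
      have := hball u
      omega
    obtain ⟨x, hx, hx'⟩ := Finset.exists_mem_notMem_of_card_lt_card h1
    refine ⟨x, (Finset.mem_filter.1 hx).1, (Finset.mem_filter.1 hx).2, u, hu, ?_⟩
    intro hw
    exact hx' (mem_ball.2 hw.symm)
  · have hAne : 0 < A.card := by omega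
    obtain ⟨x, hx⟩ := Finset.card_pos.1 hAne
    have h1 : (ball G (g - 1) x).card < (W.erase p \ S).card := by
      have h2 := hball x
      rw [Finset.card_sdiff_of_subset h.sub, Finset.card_erase_of_mem hp]
      omega
    obtain ⟨u, hu, hu'⟩ := Finset.exists_mem_notMem_of_card_lt_card h1
    refine ⟨x, (Finset.mem_filter.1 hx).1, (Finset.mem_filter.1 hx).2, u, hu, ?_⟩
    intro hw
    exact hu' (mem_ball.2 hw)

theorem St.step {G0 G : SimpleGraph V} {g D0 : ℕ} {W S : Finset V} {p : V} {c : V → ℕ}
    (h : St G0 g D0 W p G S c) (hp : p ∈ W) (hbig : 4 * (2 * D0 + 5) ^ g < W.card)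
    (hU : (W.erase p \ S).Nonempty) :
    ∃ G' S' c', St G0 g D0 W p G' S' c' ∧ (W.erase p \ S').card + 1 = (W.erase p \ S).card := by
  obtain ⟨x, hxS, hcx, u, hu, hfar⟩ := h.choose hp hbig hU
  rw [Finset.mem_sdiff, Finset.mem_erase] at hu
  obtain ⟨⟨hup, huW⟩, huS⟩ := hu
  have hux : u ≠ x := by
    rintro rfl
    exact huS hxS
  obtain ⟨y, hyW, huy, hyx, hrot⟩ := (h.ham x hxS).rotate huW hux hup
  have hxW : x ∈ W := Finset.mem_of_mem_erase (h.sub hxS)
  have huU : u ∈ W.erase p \ S := by
    rw [Finset.mem_sdiff, Finset.mem_erase]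
    exact ⟨⟨hup, huW⟩, huS⟩
  have hU' : W.erase p \ insert u S = (W.erase p \ S).erase u := by
    ext z
    simp only [Finset.mem_sdiff, Finset.mem_erase, Finset.mem_insert]
    tauto
  refine ⟨addE G x y, insert u S, Function.update c x (c x + 1), ?_, ?_⟩
  · refine ⟨h.le.trans (le_addE _ _ _), ?_, ?_, ?_, ?_, ?_, ?_, ?_⟩
    · apply noShort_addE h.short
      intro q
      by_contra hcon
      apply hfar
      refine ⟨q.append (Walk.cons huy.symm Walk.nil), ?_⟩
      rw [Walk.length_append, Walk.length_cons, Walk.length_nil]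
      omega
    · intro a b hab
      rcases hab with h1 | ⟨-, h1⟩
      · exact h.inW a b h1
      · right
        rw [Sym2.eq_iff] at h1
        rcases h1 with ⟨rfl, rfl⟩ | ⟨rfl, rfl⟩
        · exact ⟨hxW, hyW⟩
        · exact ⟨hyW, hxW⟩
    · intro z hz
      rcases Finset.mem_insert.1 hz with rfl | hz
      · exact Finset.mem_erase.2 ⟨hup, huW⟩
      · exact h.sub hz
    · intro z hz
      rcases Finset.mem_insert.1 hz with rfl | hz
      · exact hrot _ (le_addE _ _ _) (addE_adj hyx.symm)
      · exact (h.ham z hz).mono (le_addE _ _ _)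
    · rw [Finset.card_insert_of_notMem huS, Finset.sum_update_of_mem (Finset.mem_univ x)]
      have h1 := h.cnt
      rw [← Finset.add_sum_erase univ c (Finset.mem_univ x)] at h1
      have h2 : ∑ z ∈ univ \ {x}, c z = ∑ z ∈ univ.erase x, c z := by
        rw [Finset.sdiff_singleton_eq_erase]
      rw [h2]
      omega
    · intro z
      by_cases hz : z = x
      · subst hz
        rw [Function.update_self]
        omega
      · rw [Function.update_of_ne hz]
        exact h.c_le z
    · intro w
      rw [hU']
      by_cases hwx : w = x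
      · subst hwx
        rw [Function.update_self]
        have e1 : nbs (addE G w y) w ⊆ insert y (nbs G w) := by
          intro z hz
          rw [mem_nbs] at hz
          rw [Finset.mem_insert, mem_nbs]
          rcases hz with h1 | ⟨-, h1⟩
          · exact Or.inr h1
          · rw [Sym2.eq_iff] at h1
            rcases h1 with ⟨-, h2⟩ | ⟨h2, -⟩
            · exact Or.inl h2
            · exact absurd h2.symm hyx
        have e2 : nbs (addE G w y) w ∩ (W.erase p \ S).erase u ⊆
            insert y (nbs G w ∩ (W.erase p \ S)) := by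
          intro z hz
          rw [Finset.mem_inter] at hz
          have h1 := e1 hz.1
          rw [Finset.mem_insert] at h1 ⊢
          rcases h1 with h1 | h1
          · exact Or.inl h1
          · exact Or.inr (Finset.mem_inter.2 ⟨h1, Finset.mem_of_mem_erase hz.2⟩)
        have e3 := Finset.card_le_card e1
        have e4 := Finset.card_le_card e2
        have e5 := Finset.card_insert_le y (nbs G w)
        have e6 := Finset.card_insert_le y (nbs G w ∩ (W.erase p \ S))
        have e7 := h.phi w
        omega
      · rw [Function.update_of_ne hwx]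
        by_cases hwy : w = y
        · subst hwy
          have e1 : nbs (addE G x w) w ⊆ insert x (nbs G w) := by
            intro z hz
            rw [mem_nbs] at hz
            rw [Finset.mem_insert, mem_nbs]
            rcases hz with h1 | ⟨-, h1⟩
            · exact Or.inr h1
            · rw [Sym2.eq_iff] at h1
              rcases h1 with ⟨h2, -⟩ | ⟨-, h2⟩
              · exact absurd h2 hwx
              · exact Or.inl h2
          have e2 : nbs (addE G x w) w ∩ (W.erase p \ S).erase u ⊆
              (nbs G w ∩ (W.erase p \ S)).erase u := by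
            intro z hz
            rw [Finset.mem_inter, Finset.mem_erase] at hz
            obtain ⟨h1, h2, h3⟩ := hz
            have h4 := e1 h1
            rw [Finset.mem_insert] at h4
            rw [Finset.mem_erase, Finset.mem_inter]
            rcases h4 with h4 | h4
            · subst h4
              exact absurd hxS (Finset.mem_sdiff.1 h3).2
            · exact ⟨h2, h4, h3⟩
          have e8 : u ∈ nbs G w ∩ (W.erase p \ S) :=
            Finset.mem_inter.2 ⟨mem_nbs.2 huy.symm, huU⟩
          have e3 := Finset.card_le_card e1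
          have e4 := Finset.card_le_card e2
          have e5 := Finset.card_insert_le x (nbs G w)
          rw [Finset.card_erase_of_mem e8] at e4
          have e9 : 0 < (nbs G w ∩ (W.erase p \ S)).card := Finset.card_pos.2 ⟨u, e8⟩
          have e7 := h.phi w
          omega
        · have e1 : nbs (addE G x y) w ⊆ nbs G w := by
            intro z hz
            rw [mem_nbs] at hz ⊢
            rcases hz with h1 | ⟨-, h1⟩
            · exact h1
            · rw [Sym2.eq_iff] at h1
              rcases h1 with ⟨h2, -⟩ | ⟨h2, -⟩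
              · exact absurd h2 hwx
              · exact absurd h2 hwy
          have e2 : nbs (addE G x y) w ∩ (W.erase p \ S).erase u ⊆
              nbs G w ∩ (W.erase p \ S) := by
            intro z hz
            rw [Finset.mem_inter] at hz ⊢
            exact ⟨e1 hz.1, Finset.mem_of_mem_erase hz.2⟩
          have e3 := Finset.card_le_card e1
          have e4 := Finset.card_le_card e2
          have e7 := h.phi w
          omega
  · rw [hU', Finset.card_erase_of_mem huU]
    have : 0 < (W.erase p \ S).card := Finset.card_pos.2 ⟨u, huU⟩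
    omega

theorem St.finish {G0 G : SimpleGraph V} {g D0 : ℕ} {W S : Finset V} {p : V} {c : V → ℕ}
    (h : St G0 g D0 W p G S c) (hp : p ∈ W) (hbig : 4 * (2 * D0 + 5) ^ g < W.card) :
    ∃ G' c', St G0 g D0 W p G' (W.erase p) c' := by
  induction hk : (W.erase p \ S).card generalizing G S c with
  | zero =>
    have h1 : S = W.erase p := by
      apply Finset.Subset.antisymm h.sub
      rw [Finset.card_eq_zero] at hk
      exact Finset.sdiff_eq_empty_iff_subset.1 hk
    subst h1
    exact ⟨G, c, h⟩
  | succ k ih =>
    have hU : (W.erase p \ S).Nonempty := by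
      rw [← Finset.card_pos]
      omega
    obtain ⟨G', S', c', h', hk'⟩ := h.step hp hbig hU
    exact ih h' (by omega)

theorem greedy (G0 : SimpleGraph V) (g D0 : ℕ) (W : Finset V) (p x0 : V)
    (hshort : NoShort G0 g) (hdeg : ∀ w, (nbs G0 w).card ≤ D0) (hp : p ∈ W)
    (hx0 : x0 ≠ p) (hH : HamOn G0 W x0 p) (hbig : 4 * (2 * D0 + 5) ^ g < W.card) :
    ∃ G : SimpleGraph V, G0 ≤ G ∧ NoShort G g ∧ (∀ w, (nbs G w).card ≤ 2 * D0 + 4) ∧
      (∀ u v, G.Adj u v → G0.Adj u v ∨ (u ∈ W ∧ v ∈ W)) ∧
      ∀ u ∈ W, u ≠ p → HamOn G W u p := by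
  have hx0W : x0 ∈ W := by
    obtain ⟨l, h1, h2, h3, h4, h5⟩ := hH
    exact (h3 x0).1 (List.mem_of_head? h4)
  have h0 : St G0 g D0 W p G0 {x0} (fun _ => 0) := by
    refine ⟨le_rfl, hshort, fun u v h => Or.inl h, ?_, ?_, ?_, ?_, ?_⟩
    · intro z hz
      rw [Finset.mem_singleton] at hz
      subst hz
      exact Finset.mem_erase.2 ⟨hx0, hx0W⟩
    · intro z hz
      rw [Finset.mem_singleton] at hz
      subst hz
      exact hH
    · simp
    · intro z
      norm_num
    · intro w
      have h1 := hdeg w
      have h2 := Finset.card_le_card (Finset.inter_subset_left (s₁ := nbs G0 w)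
        (s₂ := W.erase p \ {x0}))
      omega
  obtain ⟨G, c, h⟩ := h0.finish hp hbig
  exact ⟨G, h.le, h.short, h.deg, h.inW, fun u hu hup => h.ham u (Finset.mem_erase.2 ⟨hup, hu⟩)⟩

end Pool.Agent.Helper76.CND
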