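import Pool.Agent.Helper76.CND.Comp

/-!
Lifting the skeleton paths: every vertex starts a path missing exactly two vertices.
-/

set_option linter.unusedSectionVars false

namespace Pool.Agent.Helper76.CND

open SimpleGraph

variable {g n : ℕ}

/-- The vertices used: over a plain skeleton vertex only one vertex is kept. -/
def Ok (P : Piece g n) (v : B × Fin n) : Prop := v.1.2 < 3 → v.2 = P.p 0

theorem pt_plain (P : Piece g n) {b : B} (hb : b.2 < 3) (s : Fin 3) : pt P b s = P.p 0 := by
  rw [pt, if_pos hb]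

theorem pt_inf (P : Piece g n) {b : B} (hb : ¬ b.2 < 3) (s : Fin 3) : pt P b s = P.p s := by
  rw [pt, if_neg hb]

theorem fibre (P : Piece g n) (b : B) (x : Fin n) (s : Fin 3) (hx : b.2 < 3 → x = P.p 0)
    (hs : ¬ b.2 < 3 → x ≠ P.p s) :
    ∃ l : List (B × Fin n), l.IsChain (full P).Adj ∧ l.Nodup ∧ (∀ v, v ∈ l ↔ v.1 = b ∧ Ok P v) ∧
      l.head? = some (b, x) ∧ l.getLast? = some (b, pt P b s) := by
  by_cases hb : b.2 < 3
  · refine ⟨[(b, x)], ?_, ?_, ?_, rfl, ?_⟩
    · exact List.isChain_singleton _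
    · exact List.nodup_singleton _
    · rintro ⟨c, y⟩
      rw [List.mem_singleton]
      constructor
      · intro h
        rw [Prod.mk.injEq] at h
        obtain ⟨rfl, rfl⟩ := h
        exact ⟨rfl, hx⟩
      · rintro ⟨h1, h2⟩
        simp only at h1
        subst h1
        have : y = P.p 0 := h2 hb
        rw [this, hx hb]
    · rw [pt_plain P hb, hx hb]
      rfl
  · obtain ⟨l, h1, h2, h3, h4, h5⟩ := P.ham s x (hs hb)
    refine ⟨l.map (fun y => (b, y)), ?_, ?_, ?_, ?_, ?_⟩
    · rw [List.isChain_map]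
      refine h1.imp ?_
      intro y z hyz
      exact Or.inl ⟨rfl, hb, hyz⟩
    · exact h2.map (fun y z h => (Prod.mk.injEq _ _ _ _ ▸ h).2)
    · rintro ⟨c, y⟩
      rw [List.mem_map]
      constructor
      · rintro ⟨z, hz, hzz⟩
        rw [Prod.mk.injEq] at hzz
        obtain ⟨rfl, rfl⟩ := hzz
        exact ⟨rfl, fun h => absurd h hb⟩
      · rintro ⟨h6, -⟩
        simp only at h6
        exact ⟨y, h3 y, by rw [h6]⟩
    · rw [List.head?_map, h4]
      rfl
    · rw [List.getLast?_map, h5, pt_inf P hb]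
      rfl

theorem lift (P : Piece g n) : ∀ (sk : List B) (b : B) (x : Fin n),
    (b :: sk).IsChain (fun a a' => ∃ s, nbr a s = a') → (b :: sk).Nodup →
    (b.2 < 3 → x = P.p 0) → (∀ s, sk.head? = some (nbr b s) → ¬ b.2 < 3 → x ≠ P.p s) →
    ∃ l : List (B × Fin n), l.IsChain (full P).Adj ∧ l.Nodup ∧
      (∀ v, v ∈ l ↔ v.1 ∈ b :: sk ∧ Ok P v) ∧ l.head? = some (b, x) := by
  intro sk
  induction sk with
  | nil =>
    intro b x hc hn hx hs
    obtain ⟨s, hs'⟩ : ∃ s, x ≠ P.p s := by
      by_cases h : x = P.p 0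
      · refine ⟨1, ?_⟩
        rw [h]
        intro h'
        exact absurd (P.inj h') (by decide)
      · exact ⟨0, h⟩
    obtain ⟨l, h1, h2, h3, h4, -⟩ := fibre P b x s hx (fun _ => hs')
    refine ⟨l, h1, h2, ?_, h4⟩
    intro v
    rw [h3, List.mem_singleton]
  | cons b' sk ih =>
    intro b x hc hn hx hs
    rw [List.isChain_cons_cons] at hc
    obtain ⟨⟨s, hs1⟩, hc⟩ := hc
    rw [List.nodup_cons] at hn
    obtain ⟨l1, h1, h2, h3, h4, h5⟩ := fibre P b x s hx (hs s (by rw [hs1]; rfl))
    have hback : nbr b' (back b s) = b := by rw [← hs1]; exact nbr_back b s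
    obtain ⟨l2, k1, k2, k3, k4⟩ := ih b' (pt P b' (back b s)) hc hn.2
      (fun h => pt_plain P h _) (by
        intro s' hs' hb' heq
        rw [pt_inf P hb'] at heq
        have := P.inj heq
        rw [← this, hback] at hs'
        apply hn.1
        rw [List.mem_cons]
        right
        exact List.mem_of_mem_head? (by rw [hs']; exact Option.mem_some_self _))
    refine ⟨l1 ++ l2, ?_, ?_, ?_, ?_⟩
    · rw [List.isChain_append]
      refine ⟨h1, k1, ?_⟩
      intro y hy z hz
      rw [h5, Option.mem_some_iff] at hy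
      rw [k4, Option.mem_some_iff] at hz
      subst hy hz
      exact Or.inr ⟨s, back b s, hs1, hback, rfl, rfl⟩
    · rw [List.nodup_append]
      refine ⟨h2, k2, ?_⟩
      intro y hy z hz hyz
      subst hyz
      rw [h3] at hy
      rw [k3] at hz
      exact hn.1 (hy.1 ▸ hz.1)
    · intro v
      rw [List.mem_append, h3, k3, List.mem_cons (a := v.1) (b := b)]
      tauto
    · rw [List.head?_append, h4]
      rfl

/-- Every vertex starts a path missing exactly the vertices over two plain skeleton vertices. -/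
theorem exists_long (P : Piece g n) (v : B × Fin n) (hv : Ok P v) :
    ∃ (c : Fin 2) (l : List (B × Fin n)), l.IsChain (full P).Adj ∧ l.Nodup ∧
      (∀ z, z ∈ l ↔ z.1 ∈ skl v.1 c ∧ Ok P z) ∧ l.head? = some v := by
  obtain ⟨b, x⟩ := v
  have key : ∀ c : Fin 2, (∀ s, (skl b c)[1]? = some (nbr b s) → ¬ b.2 < 3 → x ≠ P.p s) →
      ∃ (l : List (B × Fin n)), l.IsChain (full P).Adj ∧ l.Nodup ∧
      (∀ z, z ∈ l ↔ z.1 ∈ skl b c ∧ Ok P z) ∧ l.head? = some (b, x) := by
    intro c hc
    have h1 := skl_head b c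
    have h2 := skl_chain b c
    have h3 := skl_nodup b c
    cases hsk : skl b c with
    | nil => rw [hsk] at h1; simp at h1
    | cons a sk =>
      rw [hsk] at h1 h2 h3 hc
      have : a = b := by simpa using h1
      subst this
      exact lift P sk a x h2 h3 hv (by
        intro s hs
        apply hc s
        rw [← hs, List.getElem?_cons_succ, List.head?_eq_getElem?])
  by_cases hb : b.2 < 3
  · obtain ⟨l, h⟩ := key 0 (fun s _ h => absurd hb h)
    exact ⟨0, l, h⟩
  · obtain ⟨s0, s1, hne, e0, e1⟩ := skl_second b hb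
    by_cases hx : x = P.p s0
    · obtain ⟨l, h⟩ := key 1 (by
        intro s hs _ hxs
        rw [e1] at hs
        have := nbr_inj b s1 s (by simpa using hs)
        subst this
        exact hne (P.inj (hx.symm.trans hxs)))
      exact ⟨1, l, h⟩
    · obtain ⟨l, h⟩ := key 0 (by
        intro s hs _ hxs
        rw [e0] at hs
        have := nbr_inj b s0 s (by simpa using hs)
        subst this
        exact hx hxs)
      exact ⟨0, l, h⟩

end Pool.Agent.Helper76.CND
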