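import Pool.Agent.Helper76.CND.Greedy

/-!
Pieces of large girth with three ports.
-/

set_option linter.unusedSectionVars false

namespace Pool.Agent.Helper76.CND

open SimpleGraph Finset Classical

/-- A piece: a graph of large girth with three ports far apart, in which every vertex different from
a port is joined to this port by a Hamiltonian path. -/
structure Piece (g : ℕ) (n : ℕ) where
  K : SimpleGraph (Fin n)
  p : Fin 3 → Fin n
  inj : Function.Injective p
  short : NoShort K g
  far : ∀ i j, i ≠ j → ∀ w : K.Walk (p i) (p j), g ≤ w.length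
  ham : ∀ i u, u ≠ p i → ∃ l : List (Fin n), l.IsChain K.Adj ∧ l.Nodup ∧ (∀ x, x ∈ l) ∧
    l.head? = some u ∧ l.getLast? = some (p i)

/-- The path `0, 1, ..., n - 1` and an isolated vertex. -/
def pathG (n : ℕ) : SimpleGraph (Option (Fin n)) where
  Adj x y := ∃ i j : Fin n, x = some i ∧ y = some j ∧ (i.val + 1 = j.val ∨ j.val + 1 = i.val)
  symm := ⟨by
    rintro x y ⟨i, j, rfl, rfl, h⟩
    exact ⟨j, i, rfl, rfl, h.symm⟩⟩
  loopless := ⟨by
    rintro x ⟨i, j, rfl, h, h'⟩
    rw [Option.some_inj] at h
    subst h
    omega⟩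

theorem pathG_side (n : ℕ) (i j : Fin n) (hij : i.val + 1 = j.val) {x y : Option (Fin n)}
    (w : ((pathG n).deleteEdges {s(some i, some j)}).Walk x y)
    (hx : ∃ k : Fin n, x = some k ∧ k.val ≤ i.val) : ∃ k : Fin n, y = some k ∧ k.val ≤ i.val := by
  induction w with
  | nil => exact hx
  | @cons u v z h w ih =>
    obtain ⟨k, rfl, hle⟩ := hx
    apply ih
    rw [deleteEdges_adj] at h
    obtain ⟨⟨a, b, ha, hb, hab⟩, hne⟩ := h
    rw [Option.some_inj] at ha
    subst ha hb
    refine ⟨b, rfl, ?_⟩
    rcases hab with h1 | h1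
    · by_contra hcon
      apply hne
      have e1 : k = i := Fin.ext (by omega)
      have e2 : b = j := Fin.ext (by omega)
      rw [Set.mem_singleton_iff, e1, e2]
    · omega

theorem noShort_pathG (n g : ℕ) : NoShort (pathG n) g := by
  rintro x y ⟨i, j, rfl, rfl, h⟩ w
  exfalso
  rcases h with h | h
  · obtain ⟨k, hk, hle⟩ := pathG_side n i j h w ⟨i, rfl, le_rfl⟩
    rw [Option.some_inj] at hk
    subst hk
    omega
  · have hle : (pathG n).deleteEdges {s(some i, some j)} ≤
        (pathG n).deleteEdges {s(some j, some i)} := by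
      rw [Sym2.eq_swap]
    obtain ⟨k, hk, hle⟩ := pathG_side n j i h (w.mapLe hle).reverse ⟨j, rfl, le_rfl⟩
    rw [Option.some_inj] at hk
    subst hk
    omega

theorem pathG_none {n : ℕ} {y : Option (Fin n)} : ¬ (pathG n).Adj none y := by
  rintro ⟨i, j, h, -⟩
  simp at h

theorem nbs_pathG (n : ℕ) (w : Option (Fin n)) : (nbs (pathG n) w).card ≤ 2 := by
  cases w with
  | none =>
    have : nbs (pathG n) none = ∅ := by
      rw [Finset.eq_empty_iff_forall_notMem]
      intro y hy
      exact pathG_none (mem_nbs.1 hy)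
    rw [this]
    simp
  | some i =>
    have h1 : ∀ a b c : Option (Fin n), a ∈ nbs (pathG n) (some i) → b ∈ nbs (pathG n) (some i) →
        c ∈ nbs (pathG n) (some i) → a = b ∨ a = c ∨ b = c := by
      intro a b c ha hb hc
      obtain ⟨i1, a', e1, rfl, h1⟩ := mem_nbs.1 ha
      obtain ⟨i2, b', e2, rfl, h2⟩ := mem_nbs.1 hb
      obtain ⟨i3, c', e3, rfl, h3⟩ := mem_nbs.1 hc
      rw [Option.some_inj] at e1 e2 e3
      subst e1 e2 e3
      simp only [Option.some_inj, Fin.ext_iff]
      omega
    by_contra hcon
    push Not at hcon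
    obtain ⟨a, ha, b, hb, c, hc, hab, hac, hbc⟩ := Finset.two_lt_card.1 hcon
    rcases h1 a b c ha hb hc with h | h | h
    · exact hab h
    · exact hac h
    · exact hbc h

theorem nbs_addE {V : Type*} [Fintype V] {G : SimpleGraph V} {D : ℕ}
    (hD : ∀ w, (nbs G w).card ≤ D) (a b w : V) : (nbs (addE G a b) w).card ≤ D + 1 := by
  by_cases hw : w = a
  · subst hw
    have e1 : nbs (addE G w b) w ⊆ insert b (nbs G w) := by
      intro z hz
      rw [mem_nbs] at hz
      rw [Finset.mem_insert, mem_nbs]
      rcases hz with h1 | ⟨h0, h1⟩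
      · exact Or.inr h1
      · rw [Sym2.eq_iff] at h1
        rcases h1 with ⟨-, h2⟩ | ⟨h2, h3⟩
        · exact Or.inl h2
        · exact absurd h3.symm h0
    have e2 := Finset.card_le_card e1
    have e3 := Finset.card_insert_le b (nbs G w)
    have e4 := hD w
    omega
  · have e1 : nbs (addE G a b) w ⊆ insert a (nbs G w) := by
      intro z hz
      rw [mem_nbs] at hz
      rw [Finset.mem_insert, mem_nbs]
      rcases hz with h1 | ⟨h0, h1⟩
      · exact Or.inr h1
      · rw [Sym2.eq_iff] at h1
        rcases h1 with ⟨h2, -⟩ | ⟨-, h2⟩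
        · exact absurd h2 hw
        · exact Or.inl h2
    have e2 := Finset.card_le_card e1
    have e3 := Finset.card_insert_le a (nbs G w)
    have e4 := hD w
    omega

/-- A vertex far away from the hub. -/
theorem exists_far {n g D : ℕ} {G : SimpleGraph (Option (Fin n))}
    (hD : ∀ w, (nbs G w).card ≤ D) (hn : (D + 1) ^ g < n) :
    ∃ z : Fin n, ¬ Within G g none (some z) := by
  by_contra hcon
  push Not at hcon
  have h1 : (univ : Finset (Fin n)).image some ⊆ ball G g none := by
    intro z hz
    obtain ⟨i, -, rfl⟩ := Finset.mem_image.1 hz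
    exact mem_ball.2 (hcon i)
  have h2 := Finset.card_le_card h1
  rw [Finset.card_image_of_injective _ (Option.some_injective _), Finset.card_univ,
    Fintype.card_fin] at h2
  have h3 := card_ball_le hD g none
  omega

theorem noShort_far {V : Type*} [Fintype V] {G : SimpleGraph V} {g : ℕ} {x z : V}
    (h : NoShort G g) (hfar : ¬ Within G g x z) : NoShort (addE G x z) g := by
  apply noShort_addE h
  intro q
  by_contra hcon
  exact hfar ⟨q, by omega⟩

theorem exists_piece (g : ℕ) : ∃ n, Nonempty (Piece g n) := by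
  -- work with girth `g + 2`
  set γ := g + 2 with hγ
  set n := 4 * 69 ^ γ + 10 with hn
  have hpow : ∀ b, b ≤ 69 → 4 * b ^ γ < n - 1 := by
    intro b hb
    have := Nat.pow_le_pow_left hb γ
    omega
  have hpow' : ∀ b, b ≤ 69 → b ^ γ < n := by
    intro b hb
    have := hpow b hb
    omega
  have hn0 : 0 < n := by omega
  let a0 : Fin n := ⟨0, hn0⟩
  let aN : Fin n := ⟨n - 1, by omega⟩
  let W : Finset (Option (Fin n)) := univ.erase none
  have hW : W.card = n := by
    rw [Finset.card_erase_of_mem (Finset.mem_univ _), Finset.card_univ, Fintype.card_option,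
      Fintype.card_fin]
    rfl
  have hWmem : ∀ x : Fin n, some x ∈ W := by
    intro x
    simp [W]
  -- the graph with the hub
  let Gb := addE (pathG n) none (some a0)
  have hGb : NoShort Gb γ := by
    apply noShort_addE (noShort_pathG n γ)
    intro q
    cases q with
    | cons h _ => exact absurd h pathG_none
  have hGbd : ∀ w, (nbs Gb w).card ≤ 3 := nbs_addE (nbs_pathG n) _ _
  obtain ⟨p2, hp2⟩ := exists_far hGbd (g := γ) (hpow' 4 (by norm_num))
  let Gc := addE Gb none (some p2)
  have hGc : NoShort Gc γ := noShort_far hGb hp2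
  have hGcd : ∀ w, (nbs Gc w).card ≤ 4 := nbs_addE hGbd _ _
  obtain ⟨p3, hp3⟩ := exists_far hGcd (g := γ) (hpow' 5 (by norm_num))
  let Gd := addE Gc none (some p3)
  have hGd : NoShort Gd γ := noShort_far hGc hp3
  have hGdd : ∀ w, (nbs Gd w).card ≤ 5 := nbs_addE hGcd _ _
  have adj1 : Gb.Adj none (some a0) := addE_adj (by simp)
  have adj2 : Gc.Adj none (some p2) := addE_adj (by simp)
  have adj3 : Gd.Adj none (some p3) := addE_adj (by simp)
  have adj1c : Gc.Adj none (some a0) := le_addE _ _ _ adj1
  have h12 : p2 ≠ a0 := by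
    rintro rfl
    exact hp2 ⟨Walk.cons adj1 Walk.nil, by simp [hγ]⟩
  have h13 : p3 ≠ a0 := by
    rintro rfl
    exact hp3 ⟨Walk.cons adj1c Walk.nil, by simp [hγ]⟩
  have h23 : p3 ≠ p2 := by
    rintro rfl
    exact hp3 ⟨Walk.cons adj2 Walk.nil, by simp [hγ]⟩
  have hpathle : pathG n ≤ Gd :=
    ((le_addE _ _ _).trans (le_addE _ _ _)).trans (le_addE _ _ _)
  -- the initial Hamiltonian path
  have hH0 : HamOn Gd W (some aN) (some a0) := by
    apply HamOn.symm
    refine ⟨(List.finRange n).map some, ?_, ?_, ?_, ?_, ?_⟩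
    · rw [List.isChain_map, List.isChain_iff_getElem]
      intro i hi
      apply hpathle
      refine ⟨_, _, rfl, rfl, Or.inl ?_⟩
      simp
    · exact (List.nodup_finRange n).map (Option.some_injective _)
    · intro x
      rw [List.mem_map]
      constructor
      · rintro ⟨y, -, rfl⟩
        exact hWmem y
      · intro hx
        cases x with
        | none => simp [W] at hx
        | some y => exact ⟨y, List.mem_finRange y, rfl⟩
    · rw [List.head?_map, List.head?_eq_getElem?, List.getElem?_eq_getElem (by simpa using hn0)]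
      simp [a0]
    · rw [List.getLast?_map, List.getLast?_eq_getElem?, List.getElem?_eq_getElem (by simp; omega)]
      simp [aN]
  have hne1 : (some aN : Option (Fin n)) ≠ some a0 := by
    intro h
    rw [Option.some_inj, Fin.ext_iff] at h
    simp only [aN, a0] at h
    omega
  obtain ⟨G1, le1, sh1, dg1, in1, hm1⟩ := greedy Gd γ 5 W (some a0) (some aN) hGd hGdd (hWmem _)
    hne1 hH0 (by rw [hW]; exact lt_of_lt_of_le (hpow 15 (by norm_num)) (Nat.sub_le _ _))
  have hH1 : HamOn G1 W (some a0) (some p2) :=
    (hm1 (some p2) (hWmem _) (by simpa using h12)).symm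
  obtain ⟨G2, le2, sh2, dg2, in2, hm2⟩ := greedy G1 γ 14 W (some p2) (some a0) sh1 dg1 (hWmem _)
    (by simpa using h12.symm) hH1 (by rw [hW]; exact lt_of_lt_of_le (hpow 33 (by norm_num)) (Nat.sub_le _ _))
  have hH2 : HamOn G2 W (some a0) (some p3) :=
    ((hm1 (some p3) (hWmem _) (by simpa using h13)).mono le2).symm
  obtain ⟨G3, le3, sh3, dg3, in3, hm3⟩ := greedy G2 γ 32 W (some p3) (some a0) sh2 dg2 (hWmem _)
    (by simpa using h13.symm) hH2 (by rw [hW]; exact lt_of_lt_of_le (hpow 69 (by norm_num)) (Nat.sub_le _ _))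
  -- the piece
  let P : Fin 3 → Fin n := ![a0, p2, p3]
  have hub : ∀ i, G3.Adj none (some (P i)) := by
    intro i
    apply le3
    apply le2
    apply le1
    fin_cases i
    · exact le_addE _ _ _ adj1c
    · exact le_addE _ _ _ adj2
    · exact adj3
  have hham : ∀ i u, u ≠ P i → HamOn G3 W (some u) (some (P i)) := by
    intro i u hu
    fin_cases i
    · exact ((hm1 (some u) (hWmem _) (by simpa [P] using hu)).mono le2).mono le3
    · exact (hm2 (some u) (hWmem _) (by simpa [P] using hu)).mono le3
    · exact hm3 (some u) (hWmem _) (by simpa [P] using hu)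
  refine ⟨n, ⟨⟨G3.comap some, P, ?_, ?_, ?_, ?_⟩⟩⟩
  · intro i j hij
    fin_cases i <;> fin_cases j <;> first | rfl | (exfalso; simp [P] at hij; first | exact h12 hij | exact h12 hij.symm | exact h13 hij | exact h13 hij.symm | exact h23 hij | exact h23 hij.symm)
  · -- girth
    intro x y hxy w
    have hle : ∀ u v, ((G3.comap some).deleteEdges {s(x, y)}).Adj u v →
        (G3.deleteEdges {s(some x, some y)}).Adj (some u) (some v) := by
      intro u v huv
      rw [deleteEdges_adj] at huv ⊢
      refine ⟨huv.1, ?_⟩
      intro h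
      apply huv.2
      rw [Set.mem_singleton_iff, Sym2.eq_iff] at h ⊢
      simpa using h
    let f : ((G3.comap some).deleteEdges {s(x, y)}) →g (G3.deleteEdges {s(some x, some y)}) :=
      ⟨some, fun {u v} h => hle u v h⟩
    have := sh3 (some x) (some y) hxy (w.map f)
    rw [Walk.length_map] at this
    omega
  · intro i j hij w
    have hne : P i ≠ P j := by
      intro h
      fin_cases i <;> fin_cases j <;> first | exact hij rfl | (simp [P] at h; first | exact h12 h | exact h12 h.symm | exact h13 h | exact h13 h.symm | exact h23 h | exact h23 h.symm)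
    have hle : ∀ u v, (G3.comap some).Adj u v →
        (G3.deleteEdges {s(none, some (P i))}).Adj (some u) (some v) := by
      intro u v huv
      rw [deleteEdges_adj]
      refine ⟨huv, ?_⟩
      intro h
      rw [Set.mem_singleton_iff, Sym2.eq_iff] at h
      simp at h
    let f : (G3.comap some) →g (G3.deleteEdges {s(none, some (P i))}) :=
      ⟨some, fun {u v} h => hle u v h⟩
    have hadj : (G3.deleteEdges {s(none, some (P i))}).Adj none (some (P j)) := by
      rw [deleteEdges_adj]
      refine ⟨hub j, ?_⟩
      intro h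
      rw [Set.mem_singleton_iff, Sym2.eq_iff] at h
      simp at h
      exact hne h.symm
    have := sh3 none (some (P i)) (hub i) (Walk.cons hadj (w.map f).reverse)
    rw [Walk.length_cons, Walk.length_reverse, Walk.length_map] at this
    omega
  · intro i u hu
    obtain ⟨l, h1, h2, h3, h4, h5⟩ := hham i u hu
    have hlift : ∀ l : List (Option (Fin n)), (∀ x ∈ l, x ∈ W) → ∃ l' : List (Fin n), l'.map some = l := by
      intro l
      induction l with
      | nil =>
        intro _
        exact ⟨[], rfl⟩
      | cons a l ih =>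
        intro h
        obtain ⟨l', hl'⟩ := ih fun x hx => h x (List.mem_cons_of_mem _ hx)
        cases a with
        | none =>
          have := h none (by simp)
          simp [W] at this
        | some a => exact ⟨a :: l', by simp [hl']⟩
    obtain ⟨l', rfl⟩ := hlift l fun x hx => (h3 x).1 hx
    refine ⟨l', ?_, ?_, ?_, ?_, ?_⟩
    · rw [List.isChain_map] at h1
      exact h1
    · exact h2.of_map
    · intro x
      have := (h3 (some x)).2 (hWmem x)
      simpa using this
    · rw [List.head?_map] at h4
      simpa using h4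
    · rw [List.getLast?_map] at h5
      simpa using h5

end Pool.Agent.Helper76.CND
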