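import Pool.Agent.Helper76.CND.Lift

/-!
The upper bound: a path misses a vertex of every Petersen piece that contains no end of it.
-/

set_option linter.unusedSectionVars false
set_option maxRecDepth 100000

namespace Pool.Agent.Helper76.CND

open SimpleGraph

/-- Exactly two of three. -/
def two (a b c : Bool) : Bool := (a && b && !c) || (a && !b && c) || (!a && b && c)

/-- The table of used slots from the 15 edges. -/
def mk (x0 x1 x2 e03 e04 e15 e16 e27 e28 e35 e37 e46 e48 e58 e67 : Bool) (y : Fin 9) (s : Fin 3) :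
    Bool :=
  match y, s with
  | 0, 0 => x0 | 0, 1 => e03 | 0, 2 => e04
  | 1, 0 => x1 | 1, 1 => e15 | 1, 2 => e16
  | 2, 0 => x2 | 2, 1 => e27 | 2, 2 => e28
  | 3, 0 => e03 | 3, 1 => e35 | 3, 2 => e37
  | 4, 0 => e04 | 4, 1 => e46 | 4, 2 => e48
  | 5, 0 => e15 | 5, 1 => e35 | 5, 2 => e58
  | 6, 0 => e16 | 6, 1 => e46 | 6, 2 => e67
  | 7, 0 => e27 | 7, 1 => e37 | 7, 2 => e67
  | 8, 0 => e28 | 8, 1 => e48 | 8, 2 => e58

/-- The seven sets. -/
def cyc (i : Fin 7) (y : Fin 9) : Bool :=
  match i with
  | 0 => true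
  | 1 => y ∈ ([0, 3, 5, 8, 4] : List (Fin 9))
  | 2 => y ∈ ([0, 3, 7, 6, 4] : List (Fin 9))
  | 3 => y ∈ ([1, 5, 3, 7, 6] : List (Fin 9))
  | 4 => y ∈ ([1, 5, 8, 4, 6] : List (Fin 9))
  | 5 => y ∈ ([2, 7, 3, 5, 8] : List (Fin 9))
  | 6 => y ∈ ([2, 7, 6, 4, 8] : List (Fin 9))

/-- Slot `s` of `y` leaves the set `cyc i`. -/
def out (i : Fin 7) (y : Fin 9) (s : Fin 3) : Bool :=
  cyc i y && ((decide (y < 3) && decide (s = 0)) || !(cyc i (inn y s)))

/-- the conclusion of the check -/
def concl (f : Fin 9 → Fin 3 → Bool) : Bool :=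
  decide (∃ i : Fin 7, ∀ y s, out i y s = true → f y s = false)

theorem check15 : ∀ e03 e35 e37 : Bool, two e03 e35 e37 = true → ∀ x0 e04 : Bool,
    two x0 e03 e04 = true → ∀ e46 e48, two e04 e46 e48 = true → ∀ e16 e67, two e16 e46 e67 = true →
    ∀ e27, two e27 e37 e67 = true → ∀ e15 e58, two e15 e35 e58 = true →
    ∀ x1, two x1 e15 e16 = true → ∀ e28, two e28 e48 e58 = true → ∀ x2, two x2 e27 e28 = true →
    concl (mk x0 x1 x2 e03 e04 e15 e16 e27 e28 e35 e37 e46 e48 e58 e67) = true := by
  decide +kernel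

/-- The check for an arbitrary table. -/
theorem check (f : Fin 9 → Fin 3 → Bool) (htwo : ∀ y, two (f y 0) (f y 1) (f y 2) = true)
    (hsym : ∀ y s, ¬ (y < 3 ∧ s = 0) → f y s = f (inn y s) (back (0, y) s)) :
    ∃ i : Fin 7, ∀ y s, out i y s = true → f y s = false := by
  have e : f = mk (f 0 0) (f 1 0) (f 2 0) (f 0 1) (f 0 2) (f 1 1) (f 1 2) (f 2 1) (f 2 2) (f 3 1)
      (f 3 2) (f 4 1) (f 4 2) (f 5 2) (f 6 2) := by
    funext y s
    have := hsym y s
    revert this
    fin_cases y <;> fin_cases s <;> first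
      | (intro _; rfl)
      | (intro h
         have h' := h (by decide)
         exact h')
  have h3 : two (f 0 1) (f 3 1) (f 3 2) = true := by
    have := htwo 3
    have k1 : f 3 0 = f 0 1 := hsym 3 0 (by decide)
    rwa [k1] at this
  have h4 : two (f 0 2) (f 4 1) (f 4 2) = true := by
    have := htwo 4
    have k1 : f 4 0 = f 0 2 := hsym 4 0 (by decide)
    rwa [k1] at this
  have h5 : two (f 1 1) (f 3 1) (f 5 2) = true := by
    have := htwo 5
    have k1 : f 5 0 = f 1 1 := hsym 5 0 (by decide)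
    have k2 : f 5 1 = f 3 1 := hsym 5 1 (by decide)
    rwa [k1, k2] at this
  have h6 : two (f 1 2) (f 4 1) (f 6 2) = true := by
    have := htwo 6
    have k1 : f 6 0 = f 1 2 := hsym 6 0 (by decide)
    have k2 : f 6 1 = f 4 1 := hsym 6 1 (by decide)
    rwa [k1, k2] at this
  have h7 : two (f 2 1) (f 3 2) (f 6 2) = true := by
    have := htwo 7
    have k1 : f 7 0 = f 2 1 := hsym 7 0 (by decide)
    have k2 : f 7 1 = f 3 2 := hsym 7 1 (by decide)
    have k3 : f 7 2 = f 6 2 := hsym 7 2 (by decide)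
    rwa [k1, k2, k3] at this
  have h8 : two (f 2 2) (f 4 2) (f 5 2) = true := by
    have := htwo 8
    have k1 : f 8 0 = f 2 2 := hsym 8 0 (by decide)
    have k2 : f 8 1 = f 4 2 := hsym 8 1 (by decide)
    have k3 : f 8 2 = f 5 2 := hsym 8 2 (by decide)
    rwa [k1, k2, k3] at this
  have h := check15 (f 0 1) (f 3 1) (f 3 2) h3 (f 0 0) (f 0 2) (htwo 0) (f 4 1) (f 4 2) h4
    (f 1 2) (f 6 2) h6 (f 2 1) h7 (f 1 1) (f 5 2) h5 (f 1 0) (htwo 1) (f 2 2) h8 (f 2 0) (htwo 2)
  rw [← e] at h
  exact of_decide_eq_true h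

theorem nbr_out : ∀ b : B, b.2 < 3 → (nbr b 0).1 ≠ b.1 := by decide +kernel

theorem nbr_in : ∀ (b : B) (s : Fin 3), ¬ (b.2 < 3 ∧ s = 0) → nbr b s = (b.1, inn b.2 s) := by
  intro b s h
  rw [nbr, if_neg h]

variable {g n : ℕ}

/-- crossing number of a walk -/
def cr {V : Type*} {G : SimpleGraph V} (A : V → Bool) {u v : V} (w : G.Walk u v) : ℕ :=
  w.darts.countP fun d => A d.fst != A d.snd

theorem cr_cons {V : Type*} {G : SimpleGraph V} (A : V → Bool) {u v z : V} (h : G.Adj u z)
    (w : G.Walk z v) : cr A (Walk.cons h w) = cr A w + if A u = A z then 0 else 1 := by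
  rw [cr, cr, Walk.darts_cons, List.countP_cons]
  congr 1
  cases A u <;> cases A z <;> simp

theorem cr_parity {V : Type*} {G : SimpleGraph V} (A : V → Bool) {u v : V} (w : G.Walk u v) :
    cr A w % 2 = if A u = A v then 0 else 1 := by
  induction w with
  | nil => simp [cr]
  | @cons u z v h w ih =>
    rw [cr_cons]
    cases hu : A u <;> cases hz : A z <;> cases hv : A v <;> simp only [hz, hv] at ih ⊢ <;>
      simp at ih ⊢ <;> omega

theorem cr_zero {V : Type*} {G : SimpleGraph V} (A : V → Bool) {u v : V} (w : G.Walk u v)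
    (h : cr A w = 0) : ∀ z ∈ w.support, A z = A u := by
  induction w with
  | nil =>
    intro z hz
    rw [Walk.support_nil, List.mem_singleton] at hz
    rw [hz]
  | @cons u z v hadj w ih =>
    rw [cr_cons] at h
    have h2 : A u = A z := by
      by_contra hne
      rw [if_neg hne] at h
      omega
    have h3 : cr A w = 0 := by omega
    intro x hx
    rw [Walk.support_cons, List.mem_cons] at hx
    rcases hx with rfl | hx
    · rfl
    · rw [ih h3 x hx, h2]

/-- The edge attached to slot `s` of `b`. -/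
def eb (P : Piece g n) (b : B) (s : Fin 3) : Sym2 (B × Fin n) :=
  s((b, pt P b s), (nbr b s, pt P (nbr b s) (back b s)))

theorem eb_inj (P : Piece g n) (b : B) {s t : Fin 3} (h : eb P b s = eb P b t) : s = t := by
  rw [eb, eb, Sym2.eq_iff] at h
  rcases h with ⟨-, h⟩ | ⟨h, -⟩
  · rw [Prod.mk.injEq] at h
    exact nbr_inj b s t h.1
  · rw [Prod.mk.injEq] at h
    exact absurd h.1.symm (nbr_ne b t)

theorem eb_back (P : Piece g n) (b : B) (s : Fin 3) : eb P (nbr b s) (back b s) = eb P b s := by
  have h1 := nbr_back b s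
  have h2 : back (nbr b s) (back b s) = s := by
    apply nbr_inj b
    have := nbr_back (nbr b s) (back b s)
    rwa [h1] at this
  rw [eb, h1, h2, eb, Sym2.eq_swap]

/-- a dart between different fibres -/
theorem dart_cross (P : Piece g n) {x y : B × Fin n} (h : (full P).Adj x y) (hne : x.1 ≠ y.1) :
    ∃ s, nbr x.1 s = y.1 ∧ s(x, y) = eb P x.1 s := by
  rcases h with h | ⟨s, s', h1, h2, h3, h4⟩
  · exact absurd h.1 hne
  · refine ⟨s, h1, ?_⟩
    have h5 : s' = back x.1 s := by
      apply nbr_inj y.1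
      rw [h2, ← h1, nbr_back]
    rw [eb, h1, ← h5, ← h3, ← h4]

theorem step_count (P : Piece g n) {x y : B × Fin n} (h : (full P).Adj x y) (b : B) :
    (if decide (x.1 = b) = decide (y.1 = b) then 0 else 1) =
      (if s(x, y) = eb P b 0 then 1 else 0) + (if s(x, y) = eb P b 1 then 1 else 0) +
      (if s(x, y) = eb P b 2 then 1 else 0) := by
  have key : ∀ x y : B × Fin n, (full P).Adj x y → x.1 = b → y.1 ≠ b →
      (if s(x, y) = eb P b 0 then 1 else 0) + (if s(x, y) = eb P b 1 then 1 else 0) +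
      (if s(x, y) = eb P b 2 then 1 else 0) = 1 := by
    intro x y h hx hy
    obtain ⟨s, h1, h2⟩ := dart_cross P h (by rw [hx]; exact hy.symm)
    rw [hx] at h2
    rw [h2]
    have h3 : ∀ t, (eb P b s = eb P b t) ↔ s = t := fun t =>
      ⟨fun h => eb_inj P b h, fun h => by rw [h]⟩
    simp only [h3]
    fin_cases s <;> rfl
  by_cases hx : x.1 = b
  · by_cases hy : y.1 = b
    · have h3 : ∀ t, ¬ s(x, y) = eb P b t := by
        intro t ht
        rw [eb, Sym2.eq_iff] at ht
        rcases ht with ⟨-, ht⟩ | ⟨ht, -⟩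
        · rw [ht] at hy
          exact nbr_ne b t hy
        · rw [ht] at hx
          exact nbr_ne b t hx
      rw [if_neg (h3 0), if_neg (h3 1), if_neg (h3 2), if_pos]
      rw [hx, hy]
    · rw [key x y h hx hy, if_neg]
      simp [hx, hy]
  · by_cases hy : y.1 = b
    · have := key y x h.symm hy hx
      rw [Sym2.eq_swap] at this
      rw [this, if_neg]
      simp [hx, hy]
    · have h3 : ∀ t, ¬ s(x, y) = eb P b t := by
        intro t ht
        rw [eb, Sym2.eq_iff] at ht
        rcases ht with ⟨ht, -⟩ | ⟨-, ht⟩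
        · rw [ht] at hx
          exact hx rfl
        · rw [ht] at hy
          exact hy rfl
      rw [if_neg (h3 0), if_neg (h3 1), if_neg (h3 2), if_pos]
      simp [hx, hy]

theorem cr_single (P : Piece g n) {u v : B × Fin n} (w : (full P).Walk u v) (b : B) :
    cr (fun z => decide (z.1 = b)) w = w.edges.count (eb P b 0) + w.edges.count (eb P b 1) +
      w.edges.count (eb P b 2) := by
  induction w with
  | nil => simp [cr]
  | @cons u z v h w ih =>
    rw [cr_cons, Walk.edges_cons, List.count_cons, List.count_cons, List.count_cons, ih,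
      step_count P h b]
    simp only [beq_iff_eq]
    omega

/-- Is slot `s` of `b` used by the walk? -/
def used (P : Piece g n) {u v : B × Fin n} (w : (full P).Walk u v) (b : B) (s : Fin 3) : Bool :=
  decide (eb P b s ∈ w.edges)

theorem used_two (P : Piece g n) {u v : B × Fin n} (w : (full P).Walk u v) (hw : w.IsTrail)
    (b : B) (hu : u.1 ≠ b) (hv : v.1 ≠ b) (hz : ∃ z ∈ w.support, z.1 = b) :
    two (used P w b 0) (used P w b 1) (used P w b 2) = true := by
  have h1 := cr_parity (fun z : B × Fin n => decide (z.1 = b)) w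
  have h2 := cr_zero (fun z : B × Fin n => decide (z.1 = b)) w
  have h3 := cr_single P w b
  rw [if_pos (by simp [hu, hv])] at h1
  have h4 : cr (fun z : B × Fin n => decide (z.1 = b)) w ≠ 0 := by
    intro h
    obtain ⟨z, hz1, hz2⟩ := hz
    have := h2 h z hz1
    simp [hz2, hu] at this
  have h5 : ∀ s, w.edges.count (eb P b s) = if used P w b s = true then 1 else 0 := by
    intro s
    rw [hw.edges_nodup.count]
    simp [used]
  rw [h5, h5, h5] at h3
  generalize used P w b 0 = a0 at *
  generalize used P w b 1 = a1 at *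
  generalize used P w b 2 = a2 at *
  revert h1 h3 h4
  generalize cr (fun z : B × Fin n => decide (z.1 = b)) w = c
  intro h1 h4 h3
  cases a0 <;> cases a1 <;> cases a2 <;> simp at h3 <;> subst h3 <;> simp_all [two]

theorem used_back (P : Piece g n) {u v : B × Fin n} (w : (full P).Walk u v) (b : B) (s : Fin 3) :
    used P w (nbr b s) (back b s) = used P w b s := by
  rw [used, used, eb_back]

theorem back_shift : ∀ (j : Fin 4) (y : Fin 9) (s : Fin 3), ¬ (y < 3 ∧ s = 0) →
    back (j, y) s = back (0, y) s := by decide +kernel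

theorem cyc_ne : ∀ i, ∃ y, cyc i y = true := by decide

/-- A trail with both ends outside the `j`-th Petersen piece misses a fibre of this piece. -/
theorem miss (P : Piece g n) {u v : B × Fin n} (w : (full P).Walk u v) (hw : w.IsTrail)
    (j : Fin 4) (hu : u.1.1 ≠ j) (hv : v.1.1 ≠ j) : ∃ y : Fin 9, ∀ z ∈ w.support, z.1 ≠ (j, y) := by
  by_contra hcon
  push Not at hcon
  have hne : ∀ (x : B × Fin n) (y : Fin 9), x.1.1 ≠ j → x.1 ≠ (j, y) := by
    intro x y h h'
    rw [h'] at h
    exact h rfl
  obtain ⟨i, hi⟩ := check (fun y s => used P w (j, y) s)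
    (fun y => used_two P w hw (j, y) (hne u y hu) (hne v y hv) (hcon y)) (by
      intro y s hys
      rw [← used_back P w (j, y) s, nbr_in (j, y) s hys, back_shift j y s hys])
  set A : B × Fin n → Bool := fun z => decide (z.1.1 = j) && cyc i z.1.2 with hA
  have hAu : A u = false := by simp [hA, hu]
  have h0 : cr A w = 0 := by
    rw [cr, List.countP_eq_zero]
    intro d hd hcr
    have hmem : d.edge ∈ w.edges := by
      rw [Walk.edges]
      exact List.mem_map_of_mem hd
    -- the dart leaves `A`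
    have key : ∀ x y : B × Fin n, (full P).Adj x y → s(x, y) ∈ w.edges → A x = true →
        A y = false → False := by
      intro x y hxy hm hx hy
      have hxy1 : x.1 ≠ y.1 := by
        intro h
        rw [hA] at hx hy
        simp only [h] at hx hy
        rw [hx] at hy
        exact absurd hy (by decide)
      obtain ⟨s, h1, h2⟩ := dart_cross P hxy hxy1
      rw [hA] at hx hy
      simp only [Bool.and_eq_true, decide_eq_true_eq] at hx
      obtain ⟨⟨⟨xj, xy⟩, xx⟩, hx'⟩ : ∃ x' : B × Fin n, x' = x := ⟨x, rfl⟩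
      subst hx'
      simp only at hx h1 h2
      obtain ⟨rfl, hx2⟩ := hx
      have ho : out i xy s = true := by
        rw [out, hx2, Bool.true_and]
        by_cases hc : xy < 3 ∧ s = 0
        · simp [hc.1, hc.2]
        · rw [nbr_in _ _ hc] at h1
          simp only at h1
          simp only [← h1, decide_true, Bool.true_and] at hy
          rw [hy]
          simp
      have := hi xy s ho
      rw [used, decide_eq_false_iff_not] at this
      exact this (h2 ▸ hm)
    obtain ⟨⟨x, y⟩, hxy⟩ := d
    simp only at hcr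
    have hm : s(x, y) ∈ w.edges := hmem
    cases hx : A x <;> cases hy : A y
    · simp [hx, hy] at hcr
    · exact key y x hxy.symm (by rwa [Sym2.eq_swap]) hy hx
    · exact key x y hxy hm hx hy
    · simp [hx, hy] at hcr
  obtain ⟨y, hy⟩ := cyc_ne i
  obtain ⟨z, hz1, hz2⟩ := hcon y
  have := cr_zero A w h0 z hz1
  rw [hAu, hA] at this
  simp only [hz2, hy] at this
  simp at this

end Pool.Agent.Helper76.CND
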